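import Mathlib

namespace Pool.Agent.Results.MP_a6ecd6_co.Order6

variable {d n : ℕ}

def IsLatin (Q : (Fin d → Fin n) → Fin n) : Prop :=
  ∀ x i, Function.Bijective fun a => Q (Function.update x i a)

def IsMultiplex (Q : (Fin d → Fin n) → Fin n) (k : ℕ) (K : Multiset (Fin d → Fin n)) : Prop :=
  K.card = k * n ∧ (∀ i a, (K.filter fun x => x i = a).card = k) ∧
    ∀ s, (K.filter fun x => Q x = s).card = k

def IsPlex (Q : (Fin d → Fin n) → Fin n) (k : ℕ) (K : Multiset (Fin d → Fin n)) : Prop :=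
  IsMultiplex Q k K ∧ K.Nodup

def L : Fin 6 → Fin 6 → Fin 6 :=
  ![![3, 2, 4, 5, 0, 1], ![1, 0, 5, 4, 2, 3], ![4, 5, 0, 1, 3, 2], ![2, 4, 3, 0, 1, 5],
    ![0, 3, 1, 2, 5, 4], ![5, 1, 2, 3, 4, 0]]

def Q0 (x : Fin 2 → Fin 6) : Fin 6 := L (x 0) (x 1)

def K0 : Multiset (Fin 2 → Fin 6) :=
  ↑([![0,0], ![0,1], ![0,2], ![1,0], ![1,1], ![1,3], ![2,2], ![2,3], ![2,5], ![3,2], ![3,4],
    ![3,5], ![4,1], ![4,3], ![4,4], ![5,0], ![5,4], ![5,5], ![0,0], ![0,1], ![1,0], ![1,2],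
    ![2,2], ![2,4], ![3,3], ![3,5], ![4,3], ![4,5], ![5,1], ![5,4]] : List (Fin 2 → Fin 6))

theorem notr : ∀ a b : Fin 6, [a, b].Nodup → ∀ c, [a, b, c].Nodup → ∀ d, [a, b, c, d].Nodup →
    ∀ e, [a, b, c, d, e].Nodup → ∀ f, [a, b, c, d, e, f].Nodup →
    ¬ [L 0 a, L 1 b, L 2 c, L 3 d, L 4 e, L 5 f].Nodup := by decide +kernel

theorem noplex (K : Multiset (Fin 2 → Fin 6)) : ¬ IsPlex Q0 5 K := by
  rintro ⟨⟨-, h1, h2⟩, hn⟩
  let S : Finset (Fin 2 → Fin 6) := ⟨K, hn⟩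
  have one : ∀ (p : (Fin 2 → Fin 6) → Prop) [DecidablePred p], (K.filter p).card = 5 →
      (Finset.univ.filter p).card = 6 → (Sᶜ.filter p).card = 1 := by
    intro p _ h h'
    have e : (S.filter p).card = 5 := h
    have := Finset.card_union_of_disjoint (Finset.disjoint_filter_filter (p := p) (q := p)
      (disjoint_compl_right (a := S)))
    rw [← Finset.filter_union, Finset.union_compl] at this
    omega
  have hr : ∀ r : Fin 6, ∃ c, ![r, c] ∈ Sᶜ := by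
    intro r
    obtain ⟨x, hx⟩ := Finset.card_pos.1
      ((one _ (h1 0 r) (by revert r; decide +kernel)).symm ▸ Nat.one_pos)
    obtain ⟨h, rfl⟩ := Finset.mem_filter.1 hx
    refine ⟨x 1, ?_⟩
    convert h
    funext i; fin_cases i <;> rfl
  choose σ hσ using hr
  have hc : Function.Injective σ := fun r r' h =>
    congrFun (Finset.card_le_one.1 (one _ (h1 1 (σ r)) (by
      generalize σ r = c; revert c; decide +kernel)).le _ (Finset.mem_filter.2 ⟨hσ r, rfl⟩) _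
      (Finset.mem_filter.2 ⟨hσ r', h.symm⟩)) 0
  have hs : Function.Injective fun r => L r (σ r) := fun r r' h =>
    congrFun (Finset.card_le_one.1 (one _ (h2 (L r (σ r))) (by
      generalize L r (σ r) = c; revert c; decide +kernel)).le _ (Finset.mem_filter.2 ⟨hσ r, rfl⟩) _
      (Finset.mem_filter.2 ⟨hσ r', h.symm⟩)) 0
  exact notr (σ 0) (σ 1) (List.Nodup.map (l := [0, 1]) hc (by decide)) (σ 2)
    (List.Nodup.map (l := [0, 1, 2]) hc (by decide)) (σ 3)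
    (List.Nodup.map (l := [0, 1, 2, 3]) hc (by decide)) (σ 4)
    (List.Nodup.map (l := [0, 1, 2, 3, 4]) hc (by decide)) (σ 5)
    (List.Nodup.map (l := [0, 1, 2, 3, 4, 5]) hc (by decide))
    (List.Nodup.map (l := [0, 1, 2, 3, 4, 5]) hs (by decide))

theorem result : ¬ ∀ (d n k : ℕ) (Q : (Fin d → Fin n) → Fin n), 2 ≤ d → 1 ≤ n → 1 ≤ k →
    k ≤ n ^ (d - 1) → IsLatin Q → (∃ K, IsMultiplex Q k K) → ∃ K, IsPlex Q k K := by
  intro h
  obtain ⟨K, hK⟩ := h 2 6 5 Q0 (by decide) (by decide) (by decide) (by decide)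
    (by unfold IsLatin; decide +kernel) ⟨K0, by unfold IsMultiplex; decide +kernel⟩
  exact noplex K hK

end Pool.Agent.Results.MP_a6ecd6_co.Order6
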